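import Pool.Agent.W475.BH.Stm

set_option autoImplicit false

/-!
# Project BH, task DSC: zeros in the part of a disc between two heights
-/

namespace Pool.Agent.W919.BH

open Complex Filter Topology
open Pool.Agent.W475.BH

section Gen

variable {f : ℂ → ℂ}

theorem zeros_fin (hf : Differentiable ℂ f) (h0 : f 0 ≠ 0) (R : ℝ) :
    {z : ℂ | ‖z‖ ≤ R ∧ analyticOrderNatAt f z ≠ 0}.Finite := by
  have han : ∀ z, AnalyticAt ℂ f z := fun z => hf.analyticAt z
  by_contra hinf
  have hsub : {z : ℂ | ‖z‖ ≤ R ∧ analyticOrderNatAt f z ≠ 0} ⊆ Metric.closedBall 0 R := by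
    intro z hz; simpa using hz.1
  obtain ⟨x, -, hx⟩ :=
    Set.Infinite.exists_accPt_of_subset_isCompact hinf (isCompact_closedBall 0 R) hsub
  have hfr : ∃ᶠ z in 𝓝[≠] x, f z = 0 := by
    rw [accPt_iff_frequently_nhdsNE] at hx
    refine hx.mono fun z hz => ?_
    by_contra hne
    exact hz.2 (by
      have : analyticOrderAt f z = 0 := (han z).analyticOrderAt_eq_zero.2 hne
      simp [analyticOrderNatAt, this])
  have := AnalyticOnNhd.eqOn_zero_of_preconnected_of_frequently_eq_zero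
    (fun z _ => han z : AnalyticOnNhd ℂ f Set.univ) isPreconnected_univ (Set.mem_univ x) hfr
  exact h0 (this (Set.mem_univ 0))

theorem nz_eq (hf : Differentiable ℂ f) (h0 : f 0 ≠ 0) {R : ℝ} {A : Set ℂ}
    (hA : ∀ z ∈ A, ‖z‖ ≤ R) :
    nz f A = ∑ z ∈ (zeros_fin hf h0 R).toFinset,
      Set.indicator A (fun z => analyticOrderNatAt f z) z := by
  unfold nz
  rw [finsum_mem_def]
  refine finsum_eq_sum_of_support_subset _ ?_
  intro z hz
  simp only [Function.mem_support, ne_eq] at hz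
  have hzA : z ∈ A := by
    by_contra h
    exact hz (Set.indicator_of_notMem h _)
  rw [Set.indicator_of_mem hzA] at hz
  simp only [Set.Finite.coe_toFinset, Set.mem_setOf_eq]
  exact ⟨hA z hzA, hz⟩

theorem nz_sum_le (hf : Differentiable ℂ f) (h0 : f 0 ≠ 0) {ι : Type*} (J : Finset ι)
    (A : ι → Set ℂ) {B : Set ℂ} {R : ℝ} (hB : ∀ z ∈ B, ‖z‖ ≤ R) (hAB : ∀ j ∈ J, A j ⊆ B)
    (hd : ∀ j ∈ J, ∀ k ∈ J, j ≠ k → Disjoint (A j) (A k)) :
    ∑ j ∈ J, nz f (A j) ≤ nz f B := by
  classical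
  rw [nz_eq hf h0 hB]
  have : ∀ j ∈ J, nz f (A j) = ∑ z ∈ (zeros_fin hf h0 R).toFinset,
      Set.indicator (A j) (fun z => analyticOrderNatAt f z) z :=
    fun j hj => nz_eq hf h0 (fun z hz => hB z (hAB j hj hz))
  rw [Finset.sum_congr rfl this, Finset.sum_comm]
  refine Finset.sum_le_sum fun z _ => ?_
  by_cases hz : ∃ j ∈ J, z ∈ A j
  · obtain ⟨j, hj, hzj⟩ := hz
    rw [Finset.sum_eq_single_of_mem j hj]
    · rw [Set.indicator_of_mem hzj, Set.indicator_of_mem (hAB j hj hzj)]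
    · intro k hk hkj
      exact Set.indicator_of_notMem
        (fun h => Set.disjoint_left.mp (hd k hk j hj hkj) h hzj) _
  · push Not at hz
    rw [Finset.sum_eq_zero fun j hj => Set.indicator_of_notMem (hz j hj) _]
    exact Nat.zero_le _

theorem order_neg (hf : Differentiable ℂ f) (hev : ∀ z, f (-z) = f z) (z : ℂ) :
    analyticOrderNatAt f (-z) = analyticOrderNatAt f z := by
  have hg : AnalyticAt ℂ (fun w : ℂ => -w) z := analyticAt_id.neg
  have hd : deriv (fun w : ℂ => -w) z ≠ 0 := by simp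
  have h := analyticOrderAt_comp_of_deriv_ne_zero (f := f) hg hd
  have hc : f ∘ (fun w : ℂ => -w) = f := funext fun w => hev w
  rw [hc] at h
  simp [analyticOrderNatAt, h]

theorem nz_neg (hf : Differentiable ℂ f) (hev : ∀ z, f (-z) = f z) (A : Set ℂ) :
    nz f {z | -z ∈ A} = nz f A := by
  unfold nz
  refine finsum_mem_eq_of_bijOn (fun z => -z) ?_ ?_
  · refine ⟨fun z hz => hz, fun z _ w _ h => neg_injective h, fun z hz => ⟨-z, ?_, neg_neg z⟩⟩
    simpa using hz
  · intro z _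
    exact (order_neg hf hev z).symm

end Gen

/-- the region of CNT -/
def Blk (X1 X2 T : ℝ) : Set ℂ :=
  {z | X1 * Real.log T ≤ z.re ∧ z.re ≤ X2 * Real.log T ∧ T < z.im ∧ z.im ≤ 2 * T}

/-- the upper part -/
def Up (Y1 Y2 R : ℝ) : Set ℂ :=
  {z | ‖z‖ ≤ R ∧ Y1 * Real.log R ≤ z.re ∧ z.re ≤ Y2 * Real.log R ∧ 0 < z.im}

/-- the region of DSC -/
def Rg (Y1 Y2 R : ℝ) : Set ℂ :=
  {z | ‖z‖ ≤ R ∧ Y1 * Real.log R ≤ z.re ∧ z.re ≤ Y2 * Real.log R}

theorem tends_log_mul {a : ℝ} (ha : 0 < a) :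
    Tendsto (fun R : ℝ => (a * R * Real.log (a * R)) / (R * Real.log R)) atTop (𝓝 a) := by
  have h1 : Tendsto (fun R : ℝ => a * (Real.log a / Real.log R + 1)) atTop (𝓝 (a * (0 + 1))) :=
    ((Tendsto.div_atTop tendsto_const_nhds Real.tendsto_log_atTop).add_const 1).const_mul a
  rw [zero_add, mul_one] at h1
  refine h1.congr' ?_
  filter_upwards [eventually_gt_atTop (1 : ℝ)] with R hR
  have hl : 0 < Real.log R := Real.log_pos hR
  rw [Real.log_mul ha.ne' (by linarith)]
  field_simp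

theorem up_block {f : ℂ → ℂ} (hf : Differentiable ℂ f) (h0 : f 0 ≠ 0) {κ Y1 Y2 δ c : ℝ}
    (hκ : 0 < κ) (h1 : -κ ≤ Y1) (h2 : Y2 ≤ κ) (hδ : 0 < δ)
    (hc0 : 0 < c) (hc1 : c < 1) (J : ℕ) :
    ∀ᶠ R : ℝ in atTop, ∑ j ∈ Finset.range J,
      nz f (Blk (Y1 + δ) (Y2 - δ) (c / 2 ^ (j + 1) * R)) ≤ nz f (Up Y1 Y2 R) := by
  have hlog := Real.tendsto_log_atTop
  have e1 : ∀ᶠ R : ℝ in atTop, κ * Real.log R ≤ (1 - c) * R := by
    have h := Real.isLittleO_log_id_atTop.bound (show 0 < (1 - c) / κ by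
      exact div_pos (by linarith) hκ)
    filter_upwards [h, eventually_ge_atTop (1 : ℝ)] with R hR hR1
    simp only [id, Real.norm_eq_abs] at hR
    rw [abs_of_nonneg (Real.log_nonneg hR1), abs_of_nonneg (by linarith : (0 : ℝ) ≤ R)] at hR
    calc κ * Real.log R ≤ κ * ((1 - c) / κ * R) := by
          exact mul_le_mul_of_nonneg_left hR hκ.le
      _ = (1 - c) * R := by field_simp
  have e2 : ∀ᶠ R : ℝ in atTop, ∀ j ∈ Finset.range J,
      Y1 * Real.log R ≤ (Y1 + δ) * (Real.log (c / 2 ^ (j + 1)) + Real.log R) ∧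
      (Y2 - δ) * (Real.log (c / 2 ^ (j + 1)) + Real.log R) ≤ Y2 * Real.log R := by
    rw [Filter.eventually_all_finset]
    intro j _
    have l1 := hlog.eventually_ge_atTop (-((Y1 + δ) * Real.log (c / 2 ^ (j + 1))) / δ)
    have l2 := hlog.eventually_ge_atTop ((Y2 - δ) * Real.log (c / 2 ^ (j + 1)) / δ)
    filter_upwards [l1, l2] with R hR1 hR2
    rw [div_le_iff₀ hδ] at hR1 hR2
    constructor <;> nlinarith
  filter_upwards [e1, e2, eventually_ge_atTop (1 : ℝ)] with R hR1 hR2 hR3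
  refine nz_sum_le hf h0 _ _ (R := R) (fun z hz => hz.1) ?_ ?_
  · intro j hj z hz
    obtain ⟨a1, a2, a3, a4⟩ := hz
    have hp : (0 : ℝ) < 2 ^ (j + 1) := by positivity
    have hpos : 0 < c / 2 ^ (j + 1) := div_pos hc0 hp
    rw [Real.log_mul hpos.ne' (by linarith)] at a1 a2
    obtain ⟨b1, b2⟩ := hR2 j hj
    have hre1 : Y1 * Real.log R ≤ z.re := b1.trans a1
    have hre2 : z.re ≤ Y2 * Real.log R := a2.trans b2
    have hl : 0 ≤ Real.log R := Real.log_nonneg hR3
    have him : 0 < z.im := lt_of_le_of_lt (by positivity) a3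
    refine ⟨?_, hre1, hre2, him⟩
    have habs : |z.re| ≤ κ * Real.log R := by
      rw [abs_le]
      constructor
      · nlinarith
      · nlinarith
    have him2 : z.im ≤ c * R := by
      refine a4.trans ?_
      have h2j : (1 : ℝ) ≤ 2 ^ j := one_le_pow₀ (by norm_num)
      have : 2 * (c / 2 ^ (j + 1) * R) = c * R / 2 ^ j := by
        rw [pow_succ]; field_simp
      rw [this]
      exact div_le_self (by positivity) h2j
    calc ‖z‖ ≤ |z.re| + |z.im| := Complex.norm_le_abs_re_add_abs_im z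
      _ ≤ κ * Real.log R + c * R := by
          rw [abs_of_pos him]; exact add_le_add habs him2
      _ ≤ R := by linarith
  · intro j _ k _ hjk
    rw [Set.disjoint_left]
    have key : ∀ j k : ℕ, j < k → ∀ z : ℂ, z ∈ Blk (Y1 + δ) (Y2 - δ) (c / 2 ^ (j + 1) * R) →
        z ∉ Blk (Y1 + δ) (Y2 - δ) (c / 2 ^ (k + 1) * R) := by
      intro j k hjk z hz hz'
      have a := hz.2.2.1
      have b := hz'.2.2.2
      have hpow : (2 : ℝ) ^ (j + 1) ≤ 2 ^ k := pow_le_pow_right₀ (by norm_num) hjk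
      have h3 : 2 * (c / 2 ^ (k + 1) * R) = c / 2 ^ k * R := by
        rw [pow_succ]; field_simp
      rw [h3] at b
      have h4 : c / 2 ^ k * R ≤ c / 2 ^ (j + 1) * R := by
        refine mul_le_mul_of_nonneg_right ?_ (by linarith)
        exact div_le_div_of_nonneg_left hc0.le (by positivity) hpow
      linarith
    intro z hz hz'
    rcases lt_or_gt_of_ne hjk with h | h
    · exact key j k h z hz hz'
    · exact key k j h z hz' hz

theorem up_lower {κ Y1 Y2 : ℝ} (hS : S_SYM) (hC : S_CNT) (hκ : 0 < κ) (h1 : -κ ≤ Y1) (h2 : Y2 ≤ κ)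
    {η : ℝ} (hη : 0 < η) :
    ∀ᶠ R : ℝ in atTop, (Y2 - Y1) / (4 * Real.pi * κ) - η ≤
      (nz (XK κ) (Up Y1 Y2 R) : ℝ) / (R * Real.log R) := by
  obtain ⟨hf, h0, -⟩ := hS κ hκ
  have hpi := Real.pi_pos
  have hden : 0 < 4 * Real.pi * κ := by positivity
  rcases le_or_gt Y2 Y1 with h12 | h12
  · filter_upwards [eventually_gt_atTop (1 : ℝ)] with R hR
    have hl : 0 < Real.log R := Real.log_pos hR
    have hD : (Y2 - Y1) / (4 * Real.pi * κ) ≤ 0 :=
      div_nonpos_of_nonpos_of_nonneg (by linarith) hden.le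
    have : (0 : ℝ) ≤ (nz (XK κ) (Up Y1 Y2 R) : ℝ) / (R * Real.log R) := by positivity
    linarith
  set D := (Y2 - Y1) / (4 * Real.pi * κ) with hDdef
  have hD : 0 < D := div_pos (by linarith) hden
  obtain ⟨s, hs0, hs1, hs2⟩ : ∃ s : ℝ, 0 < s ∧ s < 1 ∧ 3 * s * D < η := by
    refine ⟨min (1 / 2) (η / (6 * D)), lt_min (by norm_num) (by positivity), ?_, ?_⟩
    · exact lt_of_le_of_lt (min_le_left _ _) (by norm_num)
    · have := min_le_right (1 / 2) (η / (6 * D))
      calc 3 * min (1 / 2) (η / (6 * D)) * D ≤ 3 * (η / (6 * D)) * D := by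
            gcongr
        _ = η / 2 := by field_simp; norm_num
        _ < η := by linarith
  obtain ⟨J, hJ⟩ : ∃ J : ℕ, (1 / 2 : ℝ) ^ J < s := exists_pow_lt_of_lt_one hs0 (by norm_num)
  have hblk := up_block hf h0 (δ := s * (Y2 - Y1) / 2) (c := 1 - s) hκ h1 h2
    (by have := mul_pos hs0 (show (0 : ℝ) < Y2 - Y1 by linarith); linarith)
    (by linarith) (by linarith) J
  have hlim : Tendsto (fun R : ℝ => ∑ j ∈ Finset.range J,
      (nz (XK κ) (Blk (Y1 + s * (Y2 - Y1) / 2) (Y2 - s * (Y2 - Y1) / 2)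
        ((1 - s) / 2 ^ (j + 1) * R)) : ℝ) / (R * Real.log R)) atTop
      (𝓝 (∑ j ∈ Finset.range J, (1 - s) * D * ((1 - s) / 2 ^ (j + 1)))) := by
    refine tendsto_finset_sum _ fun j _ => ?_
    have ha : 0 < (1 - s) / 2 ^ (j + 1) := div_pos (by linarith) (by positivity)
    have hsY : 0 ≤ s * (Y2 - Y1) / 2 := by
      have := mul_pos hs0 (show (0 : ℝ) < Y2 - Y1 by linarith); linarith
    have hsY2 : s * (Y2 - Y1) ≤ Y2 - Y1 := by nlinarith
    have hcnt := hC κ (Y1 + s * (Y2 - Y1) / 2) (Y2 - s * (Y2 - Y1) / 2) hκ (by linarith)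
      (by linarith) (by linarith)
    have hT : Tendsto (fun R : ℝ => (1 - s) / 2 ^ (j + 1) * R) atTop atTop :=
      tendsto_id.const_mul_atTop ha
    have hc2 := (hcnt.comp hT).mul (tends_log_mul ha)
    have hval : ((Y2 - s * (Y2 - Y1) / 2) - (Y1 + s * (Y2 - Y1) / 2)) / (4 * Real.pi * κ) =
        (1 - s) * D := by
      rw [hDdef]; ring
    rw [hval] at hc2
    refine hc2.congr' ?_
    have hev : ∀ᶠ R : ℝ in atTop, 1 < (1 - s) / 2 ^ (j + 1) * R := hT.eventually_gt_atTop 1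
    filter_upwards [hev, eventually_gt_atTop (1 : ℝ)] with R hR hR1
    have hl : 0 < Real.log R := Real.log_pos hR1
    have hl2 : 0 < Real.log ((1 - s) / 2 ^ (j + 1) * R) := Real.log_pos hR
    simp only [Function.comp]
    have hne : (1 - s) / 2 ^ (j + 1) * R * Real.log ((1 - s) / 2 ^ (j + 1) * R) ≠ 0 :=
      (mul_pos (by linarith) hl2).ne'
    rw [div_mul_div_cancel₀ hne]
    rfl
  have hsum : ∑ j ∈ Finset.range J, (1 - s) * D * ((1 - s) / 2 ^ (j + 1)) =
      (1 - s) * D * (1 - s) * (1 - (1 / 2) ^ J) := by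
    have hg : ∀ J : ℕ, ∑ j ∈ Finset.range J, (1 : ℝ) / 2 ^ (j + 1) = 1 - (1 / 2) ^ J := by
      intro J
      induction J with
      | zero => simp
      | succ n ih =>
        rw [Finset.sum_range_succ, ih, pow_succ, pow_succ, one_div, one_div, inv_pow]
        field_simp; ring
    rw [← hg J, Finset.mul_sum]
    refine Finset.sum_congr rfl fun j _ => ?_
    ring
  rw [hsum] at hlim
  have hval : D - η < (1 - s) * D * (1 - s) * (1 - (1 / 2) ^ J) := by
    have hp : 1 - s < 1 - (1 / 2 : ℝ) ^ J := by linarith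
    have h1s : 0 < 1 - s := by linarith
    have : (1 - s) * D * (1 - s) * (1 - s) ≤ (1 - s) * D * (1 - s) * (1 - (1 / 2) ^ J) :=
      mul_le_mul_of_nonneg_left hp.le (by positivity)
    have h3 : (1 - 3 * s) ≤ (1 - s) * (1 - s) * (1 - s) := by
      have : 0 ≤ s ^ 2 * (3 - s) := by
        apply mul_nonneg (by positivity) (by linarith)
      nlinarith
    have h4 : (1 - 3 * s) * D ≤ (1 - s) * (1 - s) * (1 - s) * D :=
      mul_le_mul_of_nonneg_right h3 hD.le
    nlinarith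
  have hev := hlim.eventually (eventually_gt_nhds hval)
  filter_upwards [hev, hblk, eventually_gt_atTop (1 : ℝ)] with R hR hRb hR1
  have hl : 0 < Real.log R := Real.log_pos hR1
  refine hR.le.trans ?_
  rw [← Finset.sum_div]
  refine div_le_div_of_nonneg_right ?_ (by positivity)
  exact_mod_cast hRb

theorem rg_lower {κ Y1 Y2 : ℝ} (hS : S_SYM) (hC : S_CNT) (hκ : 0 < κ) (h1 : -κ ≤ Y1) (h2 : Y2 ≤ κ)
    (h1' : Y1 ≤ κ) (h2' : -κ ≤ Y2)
    {η : ℝ} (hη : 0 < η) :
    ∀ᶠ R : ℝ in atTop, (Y2 - Y1) / (2 * Real.pi * κ) - η ≤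
      (nz (XK κ) (Rg Y1 Y2 R) : ℝ) / (R * Real.log R) := by
  obtain ⟨hf, h0, hev, -⟩ := hS κ hκ
  have hpi := Real.pi_pos
  have a := up_lower hS hC hκ h1 h2 (half_pos hη)
  have b := up_lower (Y1 := -Y2) (Y2 := -Y1) hS hC hκ (by linarith) (by linarith) (half_pos hη)
  filter_upwards [a, b, eventually_gt_atTop (1 : ℝ)] with R ha hb hR
  have hl : 0 < Real.log R := Real.log_pos hR
  have hsum : nz (XK κ) (Up Y1 Y2 R) + nz (XK κ) (Up (-Y2) (-Y1) R) ≤ nz (XK κ) (Rg Y1 Y2 R) := by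
    rw [← nz_neg hf hev (Up (-Y2) (-Y1) R)]
    have := nz_sum_le hf h0 (Finset.univ : Finset Bool)
      (fun i => if i then Up Y1 Y2 R else {z | -z ∈ Up (-Y2) (-Y1) R})
      (B := Rg Y1 Y2 R) (R := R) (fun z hz => hz.1) ?_ ?_
    · simpa using this
    · intro i _ z hz
      cases i
      · simp only [Bool.false_eq_true, if_false, Set.mem_setOf_eq] at hz
        obtain ⟨c1, c2, c3, c4⟩ := hz
        rw [norm_neg] at c1
        simp only [Complex.neg_re] at c2 c3
        exact ⟨c1, by linarith, by linarith⟩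
      · simp only [if_true] at hz
        exact ⟨hz.1, hz.2.1, hz.2.2.1⟩
    · intro i _ j _ hij
      have key : Disjoint (Up Y1 Y2 R) {z | -z ∈ Up (-Y2) (-Y1) R} := by
        rw [Set.disjoint_left]
        intro z hz hz'
        have c1 := hz.2.2.2
        have c2 := hz'.2.2.2
        simp only [Complex.neg_im] at c2
        linarith
      cases i <;> cases j <;> simp_all [disjoint_comm]
  have hsum' : (nz (XK κ) (Up Y1 Y2 R) : ℝ) + nz (XK κ) (Up (-Y2) (-Y1) R) ≤
      nz (XK κ) (Rg Y1 Y2 R) := by exact_mod_cast hsum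
  have hdiv := div_le_div_of_nonneg_right hsum' (show 0 ≤ R * Real.log R by positivity)
  rw [add_div] at hdiv
  have e1 : (Y2 - Y1) / (2 * Real.pi * κ) = (Y2 - Y1) / (4 * Real.pi * κ) +
      (-Y1 - -Y2) / (4 * Real.pi * κ) := by
    field_simp; ring
  rw [e1]
  linarith

/-- **Task DSC.** -/
theorem s_dsc (hS : S_SYM) (hC : S_CNT) (hT : S_TOT) : S_DSC := by
  intro κ X1 X2 hκ h1 h12 h2
  obtain ⟨hf, h0, hev, -⟩ := hS κ hκ
  have hpi := Real.pi_pos
  change Tendsto (fun R : ℝ => (nz (XK κ) (Rg X1 X2 R) : ℝ) / (R * Real.log R)) atTop _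
  rw [Metric.tendsto_nhds]
  intro ε hε
  -- a small number
  obtain ⟨η, hη, hη1, hη2⟩ : ∃ η : ℝ, 0 < η ∧ η ≤ κ ∧ 3 * η + 2 * η / (2 * Real.pi * κ) < ε := by
    have hq : 0 < 3 + 2 / (2 * Real.pi * κ) := by positivity
    refine ⟨min κ (ε / (2 * (3 + 2 / (2 * Real.pi * κ)))), lt_min hκ (by positivity),
      min_le_left _ _, ?_⟩
    set m := min κ (ε / (2 * (3 + 2 / (2 * Real.pi * κ)))) with hm
    have hm2 : m ≤ ε / (2 * (3 + 2 / (2 * Real.pi * κ))) := min_le_right _ _
    calc 3 * m + 2 * m / (2 * Real.pi * κ) = (3 + 2 / (2 * Real.pi * κ)) * m := by ring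
      _ ≤ (3 + 2 / (2 * Real.pi * κ)) * (ε / (2 * (3 + 2 / (2 * Real.pi * κ)))) :=
          mul_le_mul_of_nonneg_left hm2 hq.le
      _ = ε / 2 := by field_simp
      _ < ε := by linarith
  have lo := rg_lower (Y1 := X1) (Y2 := X2) hS hC hκ h1 h2 (by linarith) (by linarith) hη
  -- left part
  have le : ∀ᶠ R : ℝ in atTop, (X1 - η + κ) / (2 * Real.pi * κ) - η ≤
      (nz (XK κ) (Rg (-κ) (X1 - η) R) : ℝ) / (R * Real.log R) := by
    rcases le_or_gt (-κ) (X1 - η) with h | h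
    · have := rg_lower (Y1 := -κ) (Y2 := X1 - η) hS hC hκ le_rfl (by linarith) (by linarith) h hη
      simpa only [sub_neg_eq_add] using this
    · filter_upwards [eventually_gt_atTop (1 : ℝ)] with R hR
      have hl : 0 < Real.log R := Real.log_pos hR
      have hD : (X1 - η + κ) / (2 * Real.pi * κ) ≤ 0 :=
        div_nonpos_of_nonpos_of_nonneg (by linarith) (by positivity)
      have : (0 : ℝ) ≤ (nz (XK κ) (Rg (-κ) (X1 - η) R) : ℝ) / (R * Real.log R) := by positivity
      linarith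
  have ri : ∀ᶠ R : ℝ in atTop, (κ - (X2 + η)) / (2 * Real.pi * κ) - η ≤
      (nz (XK κ) (Rg (X2 + η) κ R) : ℝ) / (R * Real.log R) := by
    rcases le_or_gt (X2 + η) κ with h | h
    · exact rg_lower (Y1 := X2 + η) (Y2 := κ) hS hC hκ (by linarith) le_rfl h (by linarith) hη
    · filter_upwards [eventually_gt_atTop (1 : ℝ)] with R hR
      have hl : 0 < Real.log R := Real.log_pos hR
      have hD : (κ - (X2 + η)) / (2 * Real.pi * κ) ≤ 0 :=
        div_nonpos_of_nonpos_of_nonneg (by linarith) (by positivity)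
      have : (0 : ℝ) ≤ (nz (XK κ) (Rg (X2 + η) κ R) : ℝ) / (R * Real.log R) := by positivity
      linarith
  have tot := (hT κ hκ).eventually (eventually_lt_nhds (show 1 / Real.pi < 1 / Real.pi + η by linarith))
  filter_upwards [lo, le, ri, tot, eventually_gt_atTop (1 : ℝ)] with R r1 r2 r3 r4 hR
  have hl : 0 < Real.log R := Real.log_pos hR
  have hsum : nz (XK κ) (Rg X1 X2 R) + nz (XK κ) (Rg (-κ) (X1 - η) R) +
      nz (XK κ) (Rg (X2 + η) κ R) ≤ nz (XK κ) {z | ‖z‖ ≤ R} := by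
    have hlt : 0 < η * Real.log R := mul_pos hη hl
    have := nz_sum_le hf h0 (Finset.univ : Finset (Fin 3))
      (fun i => ![Rg X1 X2 R, Rg (-κ) (X1 - η) R, Rg (X2 + η) κ R] i)
      (B := {z | ‖z‖ ≤ R}) (R := R) (fun z hz => hz) ?_ ?_
    · simpa [Fin.sum_univ_three] using this
    · intro i _ z hz
      fin_cases i
      · exact hz.1
      · exact hz.1
      · exact hz.1
    · have d01 : Disjoint (Rg X1 X2 R) (Rg (-κ) (X1 - η) R) := by
        rw [Set.disjoint_left]
        intro z hz hz'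
        have c1 := hz.2.1
        have c2 := hz'.2.2
        nlinarith
      have d02 : Disjoint (Rg X1 X2 R) (Rg (X2 + η) κ R) := by
        rw [Set.disjoint_left]
        intro z hz hz'
        have c1 := hz.2.2
        have c2 := hz'.2.1
        nlinarith
      have d12 : Disjoint (Rg (-κ) (X1 - η) R) (Rg (X2 + η) κ R) := by
        rw [Set.disjoint_left]
        intro z hz hz'
        have c1 := hz.2.2
        have c2 := hz'.2.1
        have c3 : (X2 - X1) * Real.log R ≥ 0 := mul_nonneg (by linarith) hl.le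
        nlinarith
      intro i _ j _ hij
      fin_cases i <;> fin_cases j <;>
        first
          | exact absurd rfl hij
          | exact d01
          | exact d01.symm
          | exact d02
          | exact d02.symm
          | exact d12
          | exact d12.symm
  have hsum' : (nz (XK κ) (Rg X1 X2 R) : ℝ) + nz (XK κ) (Rg (-κ) (X1 - η) R) +
      nz (XK κ) (Rg (X2 + η) κ R) ≤ nz (XK κ) {z | ‖z‖ ≤ R} := by exact_mod_cast hsum
  have hdiv := div_le_div_of_nonneg_right hsum' (show 0 ≤ R * Real.log R by positivity)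
  rw [add_div, add_div] at hdiv
  rw [Real.dist_eq, abs_lt]
  have e1 : 1 / Real.pi - (X1 - η + κ) / (2 * Real.pi * κ) - (κ - (X2 + η)) / (2 * Real.pi * κ) =
      (X2 - X1) / (2 * Real.pi * κ) + 2 * η / (2 * Real.pi * κ) := by
    field_simp; ring
  have e2 : 0 ≤ 2 * η / (2 * Real.pi * κ) := by positivity
  constructor
  · linarith
  · linarith

end Pool.Agent.W919.BH
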